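import Pool.Agent.Helper330.SRC.P_rigid
import Pool.Agent.Helper330.SRC.P_cards
import Pool.Agent.Helper330.SRC.Loc
import Pool.Agent.Helper330.SRC.KDef
import Pool.Agent.Helper330.SRO.P_mover

/-!
Independence of the existence of strongly rigid chains.
-/

set_option autoImplicit false

namespace Pool.Agent.Results.MP_4eca4b_lc.Independence

open Cardinal Order
open Pool.Agent.Helper330.SRC Pool.Agent.Helper330.SRO

universe u

theorem not_mem_aleph_one (h : SuslinHypothesis) (h' : OpenColouringAxiom) :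
    ℵ₁ ∉ K.{0} := by
  rintro ⟨-, C, hlin, hC, hrig⟩
  have hunc : ¬ Countable C := by
    intro hc
    have h1 : #C ≤ ℵ₀ := Cardinal.mk_le_aleph0_iff.2 hc
    rw [hC] at h1
    exact absurd h1 (not_le.2 aleph0_lt_aleph_one)
  obtain ⟨E, f, hE, hmono, hne⟩ := Pool.Agent.Helper330.SRO.mover h' h C hunc
  have h1 := hrig E (fun x => f x) (fun x y hxy => hmono x x.2 y y.2 hxy)
  have h2 : {x : E | f x ≠ (x : C)} = Set.univ := by
    ext x
    simp [hne x x.2]
  have h3 : #{x : E // f x ≠ (x : C)} = #E := by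
    have : #{x : E // f x ≠ (x : C)} = #({x : E | f x ≠ (x : C)} : Set E) := rfl
    rw [this, h2, mk_univ]
  rw [h3, hC] at h1
  have h4 : #E ≤ ℵ₀ := by
    rw [← Order.lt_succ_iff, succ_aleph0]
    exact h1
  exact hE (Cardinal.mk_le_aleph0_iff.1 h4)

theorem result :
    -- every uncountable cardinal belongs to `K` in some cardinal preserving extension
    (∀ I : Type u, ∃ (P : Type u) (_ : Preorder P), Nonempty P ∧ ∀ p : P,
      p ∈ CardinalsPreserved.{u, u} P ∧
        ∀ A : Type u, ℵ₀ < #A → #A ≤ #I → p ∈ HasRigidChain P A) ∧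
    -- singular strong limit cardinals do not belong to `K`
    (∀ κ : Cardinal.{u}, κ.IsStrongLimit → κ.ord.cof < κ → κ ∉ K) ∧
    -- the members of `K` above `ν`, if the generalized continuum hypothesis holds from `ν` on
    (∀ ν : Cardinal.{u}, (∀ μ : Cardinal.{u}, ν ≤ μ → ℵ₀ ≤ μ → 2 ^ μ = succ μ) →
      ∀ κ : Cardinal.{u}, ν < κ → ℵ₀ < κ → ¬ κ.IsInaccessible → (κ ∈ K ↔ ∃ μ, κ = succ μ)) ∧
    -- `ℵ₁`
    (ℵ₁ ∈ K.{0} → ¬ (SuslinHypothesis ∧ OpenColouringAxiom)) := by
  have hL := Loc.locMain.{u}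
  refine ⟨?_, ?_, ?_, fun h h' => not_mem_aleph_one h'.1 h'.2 h⟩
  · intro I
    refine ⟨Cond I, inferInstance, ⟨⟨fun _ => [], by simp⟩⟩, fun p => ⟨cards p, ?_⟩⟩
    intro A hA hAI
    obtain ⟨e⟩ := hAI
    exact rigid e e.injective hA p
  · intro κ hκ hs hK
    exact absurd (hL.2.2.2.2.1 κ hK hκ).1.isRegular.2 (not_le.2 hs)
  · intro ν hν κ hνκ hκ hacc
    have hlt : ∀ x : Cardinal.{u}, x < κ → (2 : Cardinal.{u}) ^ x ≤ κ := by
      intro x hx
      have h1 : max x (max ν ℵ₀) < κ := max_lt hx (max_lt hνκ hκ)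
      calc (2 : Cardinal.{u}) ^ x ≤ 2 ^ (max x (max ν ℵ₀)) :=
            power_le_power_left two_ne_zero (le_max_left _ _)
        _ = succ (max x (max ν ℵ₀)) :=
            hν _ ((le_max_left _ _).trans (le_max_right _ _))
              ((le_max_right _ _).trans (le_max_right _ _))
        _ ≤ κ := succ_le_of_lt h1
    constructor
    · intro hK
      by_contra hcon
      push Not at hcon
      apply hacc
      have hlim : κ.IsStrongLimit := by
        refine ⟨(aleph0_pos.trans hκ).ne', fun x hx => ?_⟩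
        have h1 : max x (max ν ℵ₀) < κ := max_lt hx (max_lt hνκ hκ)
        calc (2 : Cardinal.{u}) ^ x ≤ 2 ^ (max x (max ν ℵ₀)) :=
              power_le_power_left two_ne_zero (le_max_left _ _)
          _ = succ (max x (max ν ℵ₀)) :=
              hν _ ((le_max_left _ _).trans (le_max_right _ _))
                ((le_max_right _ _).trans (le_max_right _ _))
          _ < κ := lt_of_le_of_ne (succ_le_of_lt h1) (hcon _).symm
      exact (hL.2.2.2.2.1 κ hK hlim).1
    · rintro ⟨μ, rfl⟩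
      have hμ : ℵ₀ ≤ μ := Order.lt_succ_iff.1 hκ
      have hνμ : ν ≤ μ := Order.lt_succ_iff.1 hνκ
      exact hL.2.2.2.1 μ hμ (hν μ hνμ hμ)

end Pool.Agent.Results.MP_4eca4b_lc.Independence
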